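import Pool.Agent.Lib.MP_5349a4_pr.M.Iface3
import Pool.Agent.Lib.MP_5349a4_pr.M.Base

/-!
# The occupation functional `mun` is a measure
-/

set_option autoImplicit false
open MeasureTheory Set
open scoped ENNReal NNReal

namespace Pool.Agent.Lib.MP_5349a4_pr.H74

variable {d : ℕ}

/-- occupation measure of a configuration -/
noncomputable def occM (th : ℕ → ℝ) (P : Set (Eu d)) (o : Eu d) (n : ℕ) : Measure (Eu d) :=
  ∑ i ∈ Finset.range n, ind (good th P o i) •
    Measure.sum (fun p : newp P o i => Measure.dirac (p : Eu d))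

theorem lintegral_occM (th : ℕ → ℝ) (P : Set (Eu d)) (o : Eu d) (n : ℕ) (f : Eu d → ℝ≥0∞) :
    ∫⁻ b, f b ∂occM th P o n = occ th P o n f := by
  unfold occM occ nnew
  rw [lintegral_finsetSum_measure]
  refine Finset.sum_congr rfl fun i _ => ?_
  rw [lintegral_smul_measure, lintegral_sum_measure, smul_eq_mul]
  congr 1
  refine tsum_congr fun p => ?_
  rw [lintegral_dirac]

theorem measurable_occ2 (hI : InvMStatement) (th : ℕ → ℝ) (n : ℕ) {f : Eu d → ℝ≥0∞}
    (hf : Measurable f) :
    Measurable fun q : Eu d × Cfg (Eu d) => occ th (pt q.2) q.1 n f := by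
  unfold occ
  refine Finset.measurable_fun_sum _ fun i _ => ?_
  refine Measurable.mul (measurable_ind ((hI d i).2.2.2.1 th)) ?_
  have h := (hI d i).2.2.2.2.1 Unit (fun _ => f) (hf.comp measurable_snd)
  exact h.comp (measurable_const.prodMk measurable_id : Measurable fun q : Eu d × Cfg (Eu d) =>
    (((), q) : Unit × Eu d × Cfg (Eu d)))

theorem measurable_occ (hI : InvMStatement) (th : ℕ → ℝ) (n : ℕ) (o : Eu d) {f : Eu d → ℝ≥0∞}
    (hf : Measurable f) : Measurable fun ω : Cfg (Eu d) => occ th (pt ω) o n f := by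
  have h := measurable_occ2 hI th n hf
  have h2 : Measurable fun ω : Cfg (Eu d) => ((o, ω) : Eu d × Cfg (Eu d)) :=
    measurable_prodMk_left
  have h3 := h.comp h2
  simp only [Function.comp_def] at h3
  exact h3

theorem measurable_occM (hI : InvMStatement) (th : ℕ → ℝ) (n : ℕ) (o : Eu d) :
    Measurable fun ω : Cfg (Eu d) => occM th (pt ω) o n := by
  refine Measure.measurable_of_measurable_coe _ fun s hs => ?_
  have h : ∀ ω : Cfg (Eu d), occM th (pt ω) o n s = occ th (pt ω) o n (s.indicator 1) := by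
    intro ω
    rw [← lintegral_occM, lintegral_indicator_one hs]
  simp_rw [h]
  exact measurable_occ hI th n o (measurable_one.indicator hs)

/-- `mun` as a measure -/
noncomputable def munM (d : ℕ) (lam : ℝ≥0) (th : ℕ → ℝ) (L : ℝ) (n : ℕ) : Measure (Eu d) :=
  (PL (leb lam (bal (0 : Eu d) L))).bind fun ω => occM th (pt ω) 0 n

theorem mun_eq (hI : InvMStatement) (lam : ℝ≥0) (th : ℕ → ℝ) (L : ℝ) (n : ℕ)
    {f : Eu d → ℝ≥0∞} (hf : Measurable f) :
    mun d lam th L n f = ∫⁻ b, f b ∂munM d lam th L n := by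
  unfold mun munM
  rw [Measure.lintegral_bind (measurable_occM hI th n 0).aemeasurable hf.aemeasurable]
  simp_rw [lintegral_occM]

theorem mun_ind_eq (hI : InvMStatement) (lam : ℝ≥0) (th : ℕ → ℝ) (L : ℝ) (n : ℕ)
    {s : Set (Eu d)} (hs : MeasurableSet s) :
    mun d lam th L n (fun b => ind (b ∈ s)) = munM d lam th L n s := by
  have h : Measurable fun b : Eu d => ind (b ∈ s) := measurable_ind (p := fun b => b ∈ s) hs
  rw [mun_eq hI lam th L n h]
  exact lintegral_ind (p := fun b => b ∈ s) hs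

end Pool.Agent.Lib.MP_5349a4_pr.H74
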