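import Pool.Agent.Lib.MP_5349a4_pr.M.Iface4
import Pool.Agent.Lib.MP_5349a4_pr.M.H74.Occ

/-!
# PAIRE: the mean number of close pairs
-/

set_option autoImplicit false
open MeasureTheory Set
open scoped ENNReal NNReal

namespace Pool.Agent.Lib.MP_5349a4_pr.H74

variable {d : ℕ}

theorem measurableSet_bal (v : Eu d) (r : ℝ) : MeasurableSet (bal v r) :=
  Metric.isClosed_closedBall.measurableSet

/-- a measure which is finite on balls is s-finite -/
theorem sfinite_of_bal (m : Measure (Eu d)) (h : ∀ s : ℝ, 1 ≤ s → m (bal 0 s) < ∞) :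
    SFinite m := by
  have : IsFiniteMeasureOnCompacts m := by
    constructor
    intro K hK
    obtain ⟨r, hr⟩ := hK.isBounded.subset_closedBall (0 : Eu d)
    refine lt_of_le_of_lt (measure_mono ?_) (h (max 1 r) (le_max_left _ _))
    exact hr.trans (Metric.closedBall_subset_closedBall (le_max_right _ _))
  infer_instance

/-- far shells -/
theorem partA (m : Measure (Eu d)) (C : ℝ) (hC : 0 < C) (k e : ℕ) (hke : k + 1 ≤ e)
    (h1 : ∀ s : ℝ, 1 ≤ s → m (bal 0 s) ≤ ENNReal.ofReal (C * s ^ k)) (y : Eu d) (hy : 40 ≤ ‖y‖) :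
    ∫⁻ b, ind (‖y‖ / 2 ≤ ‖b + y‖) * ENNReal.ofReal (C / ‖b + y‖ ^ e) ∂m
      ≤ ENNReal.ofReal (2 * C ^ 2 * 2 ^ (e + k) / ‖y‖) := by
  have hy0 : 0 < ‖y‖ := by linarith
  -- pointwise bound by shells
  have hpt : ∀ b : Eu d, ind (‖y‖ / 2 ≤ ‖b + y‖) * ENNReal.ofReal (C / ‖b + y‖ ^ e)
      ≤ ∑' j : ℕ, ind (b ∈ bal (0 : Eu d) (2 ^ (j + 1) * ‖y‖)) *
          ENNReal.ofReal (C * 2 ^ e / ‖y‖ ^ e * (1 / 2 ^ j) ^ e) := by
    intro b
    by_cases hb : ‖y‖ / 2 ≤ ‖b + y‖
    · -- find the shell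
      obtain ⟨j, hj1, hj2⟩ : ∃ j : ℕ, 2 ^ j * (‖y‖ / 2) ≤ ‖b + y‖ ∧
          ‖b + y‖ < 2 ^ (j + 1) * (‖y‖ / 2) := by
        have hx : 1 ≤ ‖b + y‖ / (‖y‖ / 2) := by
          rw [le_div_iff₀ (by positivity)]; linarith
        obtain ⟨j, hj1, hj2⟩ := exists_nat_pow_near hx (by norm_num : (1 : ℝ) < 2)
        refine ⟨j, ?_, ?_⟩
        · rwa [le_div_iff₀ (by positivity)] at hj1
        · rwa [div_lt_iff₀ (by positivity)] at hj2
      refine le_trans ?_ (ENNReal.le_tsum j)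
      have hbj : b ∈ bal (0 : Eu d) (2 ^ (j + 1) * ‖y‖) := by
        unfold bal
        rw [mem_closedBall_zero_iff]
        have : ‖b‖ ≤ ‖b + y‖ + ‖y‖ := by
          calc ‖b‖ = ‖(b + y) - y‖ := by rw [add_sub_cancel_right]
            _ ≤ ‖b + y‖ + ‖y‖ := norm_sub_le _ _
        have h2 : (1 : ℝ) ≤ 2 ^ j := one_le_pow₀ (by norm_num)
        have h3 : (2 : ℝ) ^ (j + 1) = 2 * 2 ^ j := by ring
        rw [h3] at hj2 ⊢
        nlinarith
      rw [ind_of hb, ind_of hbj, one_mul, one_mul]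
      apply ENNReal.ofReal_le_ofReal
      have hp : 0 < 2 ^ j * (‖y‖ / 2) := by positivity
      have h4 : C / ‖b + y‖ ^ e ≤ C / (2 ^ j * (‖y‖ / 2)) ^ e := by
        apply div_le_div_of_nonneg_left hC.le (by positivity)
        exact pow_le_pow_left₀ hp.le hj1 e
      refine h4.trans (le_of_eq ?_)
      rw [mul_pow, div_pow, div_pow, one_pow]
      field_simp
    · rw [ind_not hb, zero_mul]; exact zero_le
  calc ∫⁻ b, ind (‖y‖ / 2 ≤ ‖b + y‖) * ENNReal.ofReal (C / ‖b + y‖ ^ e) ∂m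
      ≤ ∫⁻ b, ∑' j : ℕ, ind (b ∈ bal (0 : Eu d) (2 ^ (j + 1) * ‖y‖)) *
          ENNReal.ofReal (C * 2 ^ e / ‖y‖ ^ e * (1 / 2 ^ j) ^ e) ∂m := lintegral_mono hpt
    _ = ∑' j : ℕ, ∫⁻ b, ind (b ∈ bal (0 : Eu d) (2 ^ (j + 1) * ‖y‖)) *
          ENNReal.ofReal (C * 2 ^ e / ‖y‖ ^ e * (1 / 2 ^ j) ^ e) ∂m := by
        apply lintegral_tsum
        intro j
        exact ((measurable_ind (p := fun b => b ∈ bal (0 : Eu d) (2 ^ (j + 1) * ‖y‖))
          (measurableSet_bal _ _)).mul_const _).aemeasurable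
    _ = ∑' j : ℕ, m (bal (0 : Eu d) (2 ^ (j + 1) * ‖y‖)) *
          ENNReal.ofReal (C * 2 ^ e / ‖y‖ ^ e * (1 / 2 ^ j) ^ e) := by
        refine tsum_congr fun j => ?_
        rw [lintegral_mul_const _ (measurable_ind (p := fun b => b ∈ bal (0 : Eu d)
          (2 ^ (j + 1) * ‖y‖)) (measurableSet_bal _ _))]
        congr 1
        exact lintegral_ind (p := fun b => b ∈ bal (0 : Eu d) (2 ^ (j + 1) * ‖y‖))
          (measurableSet_bal _ _)
    _ ≤ ∑' j : ℕ, ENNReal.ofReal (C ^ 2 * 2 ^ (e + k) / ‖y‖ * (1 / 2) ^ j) := by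
        refine ENNReal.tsum_le_tsum fun j => ?_
        have hs : 1 ≤ 2 ^ (j + 1) * ‖y‖ := by
          have : (1 : ℝ) ≤ 2 ^ (j + 1) := one_le_pow₀ (by norm_num)
          nlinarith
        calc m (bal (0 : Eu d) (2 ^ (j + 1) * ‖y‖)) *
              ENNReal.ofReal (C * 2 ^ e / ‖y‖ ^ e * (1 / 2 ^ j) ^ e)
            ≤ ENNReal.ofReal (C * (2 ^ (j + 1) * ‖y‖) ^ k) *
              ENNReal.ofReal (C * 2 ^ e / ‖y‖ ^ e * (1 / 2 ^ j) ^ e) :=
              mul_le_mul_left (h1 _ hs) _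
          _ = ENNReal.ofReal (C * (2 ^ (j + 1) * ‖y‖) ^ k *
              (C * 2 ^ e / ‖y‖ ^ e * (1 / 2 ^ j) ^ e)) :=
              (ENNReal.ofReal_mul (by positivity)).symm
          _ ≤ ENNReal.ofReal (C ^ 2 * 2 ^ (e + k) / ‖y‖ * (1 / 2) ^ j) := by
              apply ENNReal.ofReal_le_ofReal
              obtain ⟨t, rfl⟩ : ∃ t, e = k + 1 + t := ⟨e - (k + 1), by omega⟩
              have e1 : C * (2 ^ (j + 1) * ‖y‖) ^ k *
                  (C * 2 ^ (k + 1 + t) / ‖y‖ ^ (k + 1 + t) * (1 / 2 ^ j) ^ (k + 1 + t))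
                  = C ^ 2 * 2 ^ (k + 1 + t + k) / ‖y‖ * (1 / 2) ^ j *
                    ((1 / ‖y‖) ^ t * (1 / 2 ^ j) ^ t) := by
                have e2 : (2 : ℝ) ^ (j + 1) = 2 * 2 ^ j := by ring
                rw [e2]
                have hj0 : (2 : ℝ) ^ j ≠ 0 := by positivity
                have e3 : ((1 : ℝ) / 2) ^ j = 1 / 2 ^ j := by rw [div_pow, one_pow]
                rw [e3]
                simp only [mul_pow, div_pow, one_pow, pow_add, pow_one]
                field_simp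
              rw [e1]
              have h5 : (1 / ‖y‖) ^ t ≤ 1 := by
                apply pow_le_one₀ (by positivity)
                rw [div_le_one hy0]; linarith
              have h6 : ((1 : ℝ) / 2 ^ j) ^ t ≤ 1 := by
                apply pow_le_one₀ (by positivity)
                rw [div_le_one (by positivity)]
                exact one_le_pow₀ (by norm_num)
              have h7 : (1 / ‖y‖) ^ t * ((1 : ℝ) / 2 ^ j) ^ t ≤ 1 :=
                mul_le_one₀ h5 (by positivity) h6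
              exact mul_le_of_le_one_right (by positivity) h7
    _ = ENNReal.ofReal (2 * C ^ 2 * 2 ^ (e + k) / ‖y‖) := by
        have hs : Summable fun j : ℕ => C ^ 2 * 2 ^ (e + k) / ‖y‖ * (1 / 2 : ℝ) ^ j :=
          (summable_geometric_two).mul_left _
        rw [← ENNReal.ofReal_tsum_of_nonneg (fun j => by positivity) hs, tsum_mul_left,
          tsum_geometric_two]
        congr 1
        ring

/-- near part, roles exchanged -/
theorem partB (m : Measure (Eu d)) [SFinite m] (C : ℝ) (hC : 0 < C) (k e : ℕ) (hke : k + 1 ≤ e)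
    (h1 : ∀ s : ℝ, 1 ≤ s → m (bal 0 s) ≤ ENNReal.ofReal (C * s ^ k))
    (h2 : ∀ v : Eu d, 5 ≤ ‖v‖ → m (bal v 4) ≤ ENNReal.ofReal (C / ‖v‖ ^ e))
    (y : Eu d) (hy : 40 ≤ ‖y‖) :
    ∫⁻ b, ∫⁻ p, ind (‖b + y‖ < ‖y‖ / 2) * ind (dist p (b + y) ≤ 4) ∂m ∂m
      ≤ ENNReal.ofReal (C ^ 2 * 4 ^ e / ‖y‖) := by
  have hy0 : 0 < ‖y‖ := by linarith
  have hmeas : Measurable (Function.uncurry fun (b p : Eu d) =>
      ind (‖b + y‖ < ‖y‖ / 2) * ind (dist p (b + y) ≤ 4)) := by
    apply Measurable.mul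
    · apply measurable_ind (p := fun q : Eu d × Eu d => ‖q.1 + y‖ < ‖y‖ / 2)
      exact measurableSet_lt (measurable_fst.add_const y).norm measurable_const
    · apply measurable_ind (p := fun q : Eu d × Eu d => dist q.2 (q.1 + y) ≤ 4)
      exact measurableSet_le (measurable_snd.dist (measurable_fst.add_const y)) measurable_const
  rw [lintegral_lintegral_swap hmeas.aemeasurable]
  have hin : ∀ p : Eu d, ∫⁻ b, ind (‖b + y‖ < ‖y‖ / 2) * ind (dist p (b + y) ≤ 4) ∂m
      ≤ ind (p ∈ bal (0 : Eu d) ‖y‖) * ENNReal.ofReal (C * 4 ^ e / ‖y‖ ^ e) := by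
    intro p
    by_cases hp : ‖p‖ ≤ ‖y‖ / 2 + 4
    · have hp1 : p ∈ bal (0 : Eu d) ‖y‖ := by
        unfold bal; rw [mem_closedBall_zero_iff]; linarith
      have hp2 : ‖y‖ / 4 ≤ ‖p - y‖ := by
        have : ‖y‖ - ‖p‖ ≤ ‖p - y‖ := by
          rw [norm_sub_rev]; exact norm_sub_norm_le y p
        linarith
      rw [ind_of hp1, one_mul]
      calc ∫⁻ b, ind (‖b + y‖ < ‖y‖ / 2) * ind (dist p (b + y) ≤ 4) ∂m
          ≤ ∫⁻ b, ind (b ∈ bal (p - y) 4) ∂m := by
            refine lintegral_mono fun b => ?_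
            rw [← ind_and]
            apply ind_mono
            rintro ⟨-, h⟩
            unfold bal
            rw [Metric.mem_closedBall, dist_eq_norm]
            rw [dist_eq_norm] at h
            have : b - (p - y) = -(p - (b + y)) := by abel
            rw [this, norm_neg]
            exact h
        _ = m (bal (p - y) 4) :=
            lintegral_ind (p := fun b => b ∈ bal (p - y) 4) (measurableSet_bal _ _)
        _ ≤ ENNReal.ofReal (C / ‖p - y‖ ^ e) := h2 _ (by linarith)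
        _ ≤ ENNReal.ofReal (C * 4 ^ e / ‖y‖ ^ e) := by
            apply ENNReal.ofReal_le_ofReal
            have h3 : C / ‖p - y‖ ^ e ≤ C / (‖y‖ / 4) ^ e := by
              apply div_le_div_of_nonneg_left hC.le (by positivity)
              exact pow_le_pow_left₀ (by positivity) hp2 e
            refine h3.trans (le_of_eq ?_)
            rw [div_pow]
            field_simp
    · have : ∀ b : Eu d, ind (‖b + y‖ < ‖y‖ / 2) * ind (dist p (b + y) ≤ 4) = 0 := by
        intro b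
        rw [← ind_and]
        apply ind_not
        rintro ⟨ha, hb⟩
        apply hp
        rw [dist_eq_norm] at hb
        have : ‖p‖ ≤ ‖p - (b + y)‖ + ‖b + y‖ := by
          calc ‖p‖ = ‖(p - (b + y)) + (b + y)‖ := by rw [sub_add_cancel]
            _ ≤ _ := norm_add_le _ _
        linarith
      simp_rw [this]
      rw [lintegral_zero]
      exact zero_le
  calc ∫⁻ p, ∫⁻ b, ind (‖b + y‖ < ‖y‖ / 2) * ind (dist p (b + y) ≤ 4) ∂m ∂m
      ≤ ∫⁻ p, ind (p ∈ bal (0 : Eu d) ‖y‖) * ENNReal.ofReal (C * 4 ^ e / ‖y‖ ^ e) ∂m :=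
        lintegral_mono hin
    _ = m (bal (0 : Eu d) ‖y‖) * ENNReal.ofReal (C * 4 ^ e / ‖y‖ ^ e) := by
        rw [lintegral_mul_const _ (measurable_ind (p := fun b => b ∈ bal (0 : Eu d) ‖y‖)
          (measurableSet_bal _ _))]
        congr 1
        exact lintegral_ind (p := fun b => b ∈ bal (0 : Eu d) ‖y‖) (measurableSet_bal _ _)
    _ ≤ ENNReal.ofReal (C * ‖y‖ ^ k) * ENNReal.ofReal (C * 4 ^ e / ‖y‖ ^ e) :=
        mul_le_mul_left (h1 _ (by linarith)) _
    _ = ENNReal.ofReal (C * ‖y‖ ^ k * (C * 4 ^ e / ‖y‖ ^ e)) :=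
        (ENNReal.ofReal_mul (by positivity)).symm
    _ ≤ ENNReal.ofReal (C ^ 2 * 4 ^ e / ‖y‖) := by
        apply ENNReal.ofReal_le_ofReal
        obtain ⟨t, rfl⟩ : ∃ t, e = k + 1 + t := ⟨e - (k + 1), by omega⟩
        have e1 : C * ‖y‖ ^ k * (C * 4 ^ (k + 1 + t) / ‖y‖ ^ (k + 1 + t))
            = C ^ 2 * 4 ^ (k + 1 + t) / ‖y‖ * (1 / ‖y‖) ^ t := by
          simp only [div_pow, one_pow, pow_add, pow_one]
          field_simp
        rw [e1]
        apply mul_le_of_le_one_right (by positivity)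
        apply pow_le_one₀ (by positivity)
        rw [div_le_one hy0]; linarith

theorem paire (hI : InvMStatement) : PairEStatement := by
  intro d k C hdk hC
  refine ⟨2 * C ^ 2 * 2 ^ ((d - 1 - k) + k) + C ^ 2 * 4 ^ (d - 1 - k), by positivity, ?_⟩
  intro lam th L n h1 h2 y hy
  set e := d - 1 - k with he
  have hke : k + 1 ≤ e := by omega
  set m := munM d lam th L n with hm
  have h1' : ∀ s : ℝ, 1 ≤ s → m (bal 0 s) ≤ ENNReal.ofReal (C * s ^ k) := by
    intro s hs
    rw [hm, ← mun_ind_eq hI lam th L n (measurableSet_bal _ _)]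
    exact h1 s hs
  have h2' : ∀ v : Eu d, 5 ≤ ‖v‖ → m (bal v 4) ≤ ENNReal.ofReal (C / ‖v‖ ^ e) := by
    intro v hv
    rw [hm, ← mun_ind_eq hI lam th L n (measurableSet_bal _ _)]
    exact h2 v hv
  have hsf : SFinite m := sfinite_of_bal m fun s hs => (h1' s hs).trans_lt ENNReal.ofReal_lt_top
  have hmeas : Measurable (Function.uncurry fun (b p : Eu d) => ind (dist p (b + y) ≤ 4)) := by
    apply measurable_ind (p := fun q : Eu d × Eu d => dist q.2 (q.1 + y) ≤ 4)
    exact measurableSet_le (measurable_snd.dist (measurable_fst.add_const y)) measurable_const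
  have hin : ∀ b : Eu d, mun d lam th L n (fun p => ind (dist p (b + y) ≤ 4))
      = ∫⁻ p, ind (dist p (b + y) ≤ 4) ∂m := by
    intro b
    have hmb : Measurable fun p : Eu d => ind (dist p (b + y) ≤ 4) :=
      measurable_ind (p := fun p => dist p (b + y) ≤ 4)
        (measurableSet_le (measurable_id.dist measurable_const) measurable_const)
    exact mun_eq hI lam th L n hmb
  have hG : Measurable fun b : Eu d => ∫⁻ p, ind (dist p (b + y) ≤ 4) ∂m := by
    have h := hmeas.lintegral_prod_right' (ν := m)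
    simp only [Function.uncurry_apply_pair] at h
    exact h
  simp_rw [hin]
  rw [mun_eq hI lam th L n hG, ← hm]
  have hs1 : MeasurableSet {b : Eu d | ‖y‖ / 2 ≤ ‖b + y‖} :=
    measurableSet_le measurable_const (measurable_id.add_const y).norm
  have hs2 : MeasurableSet {b : Eu d | ‖b + y‖ < ‖y‖ / 2} :=
    measurableSet_lt (measurable_id.add_const y).norm measurable_const
  calc ∫⁻ b, ∫⁻ p, ind (dist p (b + y) ≤ 4) ∂m ∂m
      ≤ ∫⁻ b, (ind (‖y‖ / 2 ≤ ‖b + y‖) * ENNReal.ofReal (C / ‖b + y‖ ^ e)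
          + ∫⁻ p, ind (‖b + y‖ < ‖y‖ / 2) * ind (dist p (b + y) ≤ 4) ∂m) ∂m := by
        refine lintegral_mono fun b => ?_
        by_cases hb : ‖y‖ / 2 ≤ ‖b + y‖
        · rw [ind_of hb, one_mul]
          refine le_trans ?_ le_self_add
          have hb5 : 5 ≤ ‖b + y‖ := by linarith
          refine le_trans (le_of_eq ?_) (h2' _ hb5)
          exact lintegral_ind (p := fun p => p ∈ bal (b + y) 4) (measurableSet_bal _ _)
        · have hb' : ‖b + y‖ < ‖y‖ / 2 := not_le.mp hb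
          simp_rw [ind_of hb', one_mul]
          exact le_add_self
    _ = ∫⁻ b, ind (‖y‖ / 2 ≤ ‖b + y‖) * ENNReal.ofReal (C / ‖b + y‖ ^ e) ∂m
          + ∫⁻ b, ∫⁻ p, ind (‖b + y‖ < ‖y‖ / 2) * ind (dist p (b + y) ≤ 4) ∂m ∂m := by
        apply lintegral_add_left
        apply Measurable.mul (measurable_ind (p := fun b : Eu d => ‖y‖ / 2 ≤ ‖b + y‖) hs1)
        apply ENNReal.measurable_ofReal.comp
        exact measurable_const.div ((measurable_id.add_const y).norm.pow_const e)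
    _ ≤ ENNReal.ofReal (2 * C ^ 2 * 2 ^ (e + k) / ‖y‖) + ENNReal.ofReal (C ^ 2 * 4 ^ e / ‖y‖) :=
        add_le_add (partA m C hC k e hke h1' y hy) (partB m C hC k e hke h1' h2' y hy)
    _ = ENNReal.ofReal ((2 * C ^ 2 * 2 ^ (e + k) + C ^ 2 * 4 ^ e) / ‖y‖) := by
        rw [← ENNReal.ofReal_add (by positivity) (by positivity), add_div]

end Pool.Agent.Lib.MP_5349a4_pr.H74
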